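import Pool.Agent.Q75.BM.Stm

set_option autoImplicit false

/-!
Project BM (helper75), statement `S_E1`: expectation over random words is linear, monotone and
preserves constants.
-/

namespace Pool.Agent.Q259.BM

open Pool.Agent.Q75.BM Finset

lemma univ_ltr : (Finset.univ : Finset Ltr) = {Ltr.a, Ltr.ai, Ltr.d, Ltr.di} := by
  ext s
  cases s <;> simp

lemma sum_ltr (f : Ltr → ℝ) : ∑ s : Ltr, f s = f .a + f .ai + f .d + f .di := by
  rw [univ_ltr, sum_insert (by decide), sum_insert (by decide), sum_insert (by decide),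
    sum_singleton]
  ring

lemma sum_q (ε : ℝ) : ∑ s : Ltr, q ε s = 1 := by
  rw [sum_ltr]
  simp only [q]
  ring

lemma q_nonneg {ε : ℝ} (h0 : 0 ≤ ε) (h1 : ε ≤ 1 / 3) (s : Ltr) : 0 ≤ q ε s := by
  cases s <;> simp only [q] <;> linarith

theorem t_E1 : S_E1 := by
  intro ε h0 h1 n
  induction n with
  | zero =>
    exact ⟨fun _ _ => rfl, fun _ _ => rfl, fun _ => rfl, fun F H h => h [] rfl⟩
  | succ n ih =>
    obtain ⟨i1, i2, i3, i4⟩ := ih
    refine ⟨fun F H => ?_, fun c F => ?_, fun c => ?_, fun F H h => ?_⟩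
    · simp only [Ew]
      rw [← sum_add_distrib]
      refine sum_congr rfl fun s _ => ?_
      rw [i1 (fun w => F (w ++ [s])) (fun w => H (w ++ [s]))]
      ring
    · simp only [Ew]
      rw [mul_sum]
      refine sum_congr rfl fun s _ => ?_
      rw [i2 c (fun w => F (w ++ [s]))]
      ring
    · simp only [Ew]
      rw [sum_congr rfl fun s _ => by rw [i3 c], ← sum_mul, sum_q, one_mul]
    · simp only [Ew]
      refine sum_le_sum fun s _ => mul_le_mul_of_nonneg_left ?_ (q_nonneg h0 h1 s)
      exact i4 _ _ fun w hw => h _ (by rw [List.length_append, hw, List.length_singleton])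

end Pool.Agent.Q259.BM
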