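import Pool.Agent.Q75.BM.Stm

set_option autoImplicit false

/-!
Project BM (helper75), statement `S_SG`: the mass of a segment from test functions.
-/

namespace Pool.Agent.Q259.BM

open Pool.Agent.Q75.BM Filter Topology MeasureTheory Set
open scoped ContDiff Manifold

theorem seg_compact : IsCompact seg := by
  unfold seg
  exact isCompact_Icc.image Complex.continuous_ofReal

theorem seg_ball : seg ⊆ Metric.ball (0 : ℂ) 4 := by
  rintro _ ⟨t, ht, rfl⟩
  rw [mem_ball_zero_iff, Complex.norm_real, Real.norm_eq_abs, abs_lt]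
  exact ⟨by linarith [ht.1], by linarith [ht.2]⟩

theorem t_SG : S_SG := by
  intro T c hT h
  have _ := hT
  refine le_of_forall_gt fun r hr => ?_
  obtain ⟨U, hU, hUo, hUr⟩ := seg.exists_isOpen_lt_of_lt r hr
  have hUo' : IsOpen (U ∩ Metric.ball (0 : ℂ) 4) := hUo.inter Metric.isOpen_ball
  have hsub : seg ⊆ interior (U ∩ Metric.ball (0 : ℂ) 4) := by
    rw [hUo'.interior_eq]
    exact subset_inter hU seg_ball
  obtain ⟨f, hf1, hf0, hf01⟩ := exists_contMDiffMap_one_nhds_of_subset_interior (n := (⊤ : ℕ∞)) 𝓘(ℝ, ℂ)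
    seg_compact.isClosed hsub
  have hsupp : ∀ z : ℂ, z ∉ Metric.closedBall (0 : ℂ) 4 → f z = 0 := fun z hz =>
    hf0 z fun hz' => hz (Metric.ball_subset_closedBall hz'.2)
  have hcomp : HasCompactSupport (fun z => f z) :=
    HasCompactSupport.intro (isCompact_closedBall (0 : ℂ) 4) hsupp
  have hsm : ContDiff ℝ ∞ (fun z => f z) := contMDiff_iff_contDiff.1 f.contMDiff
  have hc : c ≤ ∫ z, f z ∂T := h (fun z => f z) ⟨hsm, hcomp⟩ (fun z => (hf01 z).1)
    (fun z hz => (hf1.self_of_nhdsSet z hz).ge)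
  have hfin : T (U ∩ Metric.ball (0 : ℂ) 4) < ⊤ :=
    lt_of_le_of_lt (measure_mono (inter_subset_right.trans Metric.ball_subset_closedBall))
      (isCompact_closedBall (0 : ℂ) 4).measure_lt_top
  have hle : ∫ z, f z ∂T ≤ (T (U ∩ Metric.ball (0 : ℂ) 4)).toReal := by
    have h1 : ∫ z, f z ∂T ≤ ∫ z, (U ∩ Metric.ball (0 : ℂ) 4).indicator (fun _ => (1 : ℝ)) z ∂T := by
      refine integral_mono (hsm.continuous.integrable_of_hasCompactSupport hcomp) ?_ fun z => ?_
      · exact (integrable_indicator_iff hUo'.measurableSet).2 (integrableOn_const hfin.ne)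
      · by_cases hz : z ∈ U ∩ Metric.ball (0 : ℂ) 4
        · rw [indicator_of_mem hz]; exact (hf01 z).2
        · rw [indicator_of_notMem hz, hf0 z hz]
    rw [integral_indicator_const _ hUo'.measurableSet] at h1
    simpa [Measure.real] using h1
  calc ENNReal.ofReal c ≤ ENNReal.ofReal (T (U ∩ Metric.ball (0 : ℂ) 4)).toReal :=
        ENNReal.ofReal_le_ofReal (hc.trans hle)
    _ = T (U ∩ Metric.ball (0 : ℂ) 4) := ENNReal.ofReal_toReal hfin.ne
    _ ≤ T U := measure_mono inter_subset_left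
    _ < r := hUr

end Pool.Agent.Q259.BM
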